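import Pool.Agent.Helper37.BP.SysDefs
import Pool.Graph.R_seed8.BAPp.TraceI
import Pool.Graph.R_seed8.BAPp.ILe

/-! Part DUALA of MP_6f6997_an: a functional on `L(X, E)` dual to the Chevet–Saphar norm. -/

open MeasureTheory
open scoped ENNReal NNReal

set_option maxSynthPendingDepth 3

namespace Pool.Agent.Helper12.BAP

open Pool.Agent.BAPp (sgn weakNorm gNorm iNorm incl FiniteRank)
open Pool.Agent.Helper37.BP

/-- the property of functionals used in DUALA / PIETSCH -/
def Sub (p q : ℝ) {X : Type} [NormedAddCommGroup X] [NormedSpace ℝ X] (E : Submodule ℝ X)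
    (Λ : (X →L[ℝ] E) →ₗ[ℝ] ℝ) : Prop :=
  ∀ (n : ℕ) (xs : Fin n → (X →L[ℝ] ℝ)) (ys : Fin n → E), ∑ k, ‖xs k‖ ^ p ≤ 1 →
    (∀ f : X →L[ℝ] ℝ, ‖f‖ ≤ 1 → ∑ k, |f (ys k)| ^ q ≤ 1) →
    Λ (∑ k, (xs k).smulRight (ys k)) ≤ 1

/-- the unit ball -/
def UU (p q : ℝ) {X : Type} [NormedAddCommGroup X] [NormedSpace ℝ X] (E : Submodule ℝ X) :
    Set (X →L[ℝ] E) :=
  {T | ∃ (n : ℕ) (xs : Fin n → (X →L[ℝ] ℝ)) (ys : Fin n → E), ∑ k, ‖xs k‖ ^ p ≤ 1 ∧
    (∀ f : X →L[ℝ] ℝ, ‖f‖ ≤ 1 → ∑ k, |f (ys k)| ^ q ≤ 1) ∧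
    T = ∑ k, (xs k).smulRight (ys k)}

section
variable {p q : ℝ} {X : Type} [NormedAddCommGroup X] [NormedSpace ℝ X] {E : Submodule ℝ X}

theorem UU_convex (hpq : p.HolderConjugate q) : Convex ℝ (UU p q E) := by
  have hp0 : p ≠ 0 := hpq.ne_zero
  have hq0 : q ≠ 0 := hpq.symm.ne_zero
  rintro T1 ⟨n1, xs1, ys1, h1, k1, rfl⟩ T2 ⟨n2, xs2, ys2, h2, k2, rfl⟩ a b ha hb hab
  have key : ∀ (c : ℝ), 0 ≤ c → ∀ (r : ℝ), r ≠ 0 → ∀ x : ℝ, 0 ≤ x →
      (c ^ (1 / r) * x) ^ r = c * x ^ r := by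
    intro c hc r hr x hx
    rw [Real.mul_rpow (Real.rpow_nonneg hc _) hx, ← Real.rpow_mul hc, one_div,
      inv_mul_cancel₀ hr, Real.rpow_one]
  have hprod : ∀ c : ℝ, 0 ≤ c → c ^ (1 / p) * c ^ (1 / q) = c := by
    intro c hc
    rcases hc.eq_or_lt with h | h
    · rw [← h, Real.zero_rpow (one_div_ne_zero hp0), zero_mul]
    · rw [← Real.rpow_add h, one_div, one_div, hpq.inv_add_inv_eq_one, Real.rpow_one]
  refine ⟨n1 + n2, Fin.append (fun k => (a ^ (1 / p)) • xs1 k) (fun k => (b ^ (1 / p)) • xs2 k),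
    Fin.append (fun k => (a ^ (1 / q)) • ys1 k) (fun k => (b ^ (1 / q)) • ys2 k), ?_, ?_, ?_⟩
  · rw [Fin.sum_univ_add]
    simp only [Fin.append_left, Fin.append_right, norm_smul]
    rw [Real.norm_of_nonneg (Real.rpow_nonneg ha _), Real.norm_of_nonneg (Real.rpow_nonneg hb _)]
    simp only [key a ha p hp0 _ (norm_nonneg _), key b hb p hp0 _ (norm_nonneg _)]
    rw [← Finset.mul_sum, ← Finset.mul_sum]
    nlinarith
  · intro f hf
    rw [Fin.sum_univ_add]
    simp only [Fin.append_left, Fin.append_right, Submodule.coe_smul, map_smul, smul_eq_mul,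
      abs_mul]
    rw [abs_of_nonneg (Real.rpow_nonneg ha _), abs_of_nonneg (Real.rpow_nonneg hb _)]
    simp only [key a ha q hq0 _ (abs_nonneg _), key b hb q hq0 _ (abs_nonneg _)]
    rw [← Finset.mul_sum, ← Finset.mul_sum]
    have := k1 f hf
    have := k2 f hf
    nlinarith
  · rw [Fin.sum_univ_add, Finset.smul_sum, Finset.smul_sum]
    congr 1
    · refine Finset.sum_congr rfl fun k _ => ?_
      simp only [Fin.append_left]
      ext x
      simp only [_root_.smul_apply, ContinuousLinearMap.smulRight_apply,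
        Submodule.coe_smul, smul_smul, smul_eq_mul]
      congr 1
      rw [← hprod a ha]
      rw [hprod a ha]
      calc a * xs1 k x = (a ^ (1 / p) * a ^ (1 / q)) * xs1 k x := by rw [hprod a ha]
        _ = _ := by ring
    · refine Finset.sum_congr rfl fun k _ => ?_
      simp only [Fin.append_right]
      ext x
      simp only [_root_.smul_apply, ContinuousLinearMap.smulRight_apply,
        Submodule.coe_smul, smul_smul, smul_eq_mul]
      congr 1
      calc b * xs2 k x = (b ^ (1 / p) * b ^ (1 / q)) * xs2 k x := by rw [hprod b hb]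
        _ = _ := by ring

theorem UU_balanced (hpq : p.HolderConjugate q) (c : ℝ) (hc : |c| ≤ 1) (T : X →L[ℝ] E)
    (hT : T ∈ UU p q E) : c • T ∈ UU p q E := by
  obtain ⟨n, xs, ys, h, k, rfl⟩ := hT
  have hp : 0 < p := hpq.pos
  refine ⟨n, fun j => c • xs j, ys, ?_, k, ?_⟩
  · refine le_trans (Finset.sum_le_sum fun j _ => ?_) h
    refine Real.rpow_le_rpow (norm_nonneg _) ?_ hp.le
    rw [norm_smul, Real.norm_eq_abs]
    exact mul_le_of_le_one_left (norm_nonneg _) hc
  · rw [Finset.smul_sum]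
    refine Finset.sum_congr rfl fun j _ => ?_
    ext x
    simp only [_root_.smul_apply, ContinuousLinearMap.smulRight_apply,
      Submodule.coe_smul, smul_smul, smul_eq_mul]

theorem UU_exists_smul (hpq : p.HolderConjugate q) [FiniteDimensional ℝ E] (T : X →L[ℝ] E) :
    ∃ C : ℝ, 0 < C ∧ C⁻¹ • T ∈ UU p q E := by
  have hp1 : 1 < p := hpq.lt
  have hq1 : 1 < q := hpq.symm.lt
  let e := Module.finBasis ℝ E
  let xs : Fin (Module.finrank ℝ E) → (X →L[ℝ] ℝ) := fun i =>
    (LinearMap.toContinuousLinearMap (e.coord i)) ∘L T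
  have hT : T = ∑ i, (xs i).smulRight (e i) := by
    ext x
    have h := e.sum_repr (T x)
    simp only [_root_.sum_apply, ContinuousLinearMap.smulRight_apply, xs,
      ContinuousLinearMap.comp_apply, LinearMap.coe_toContinuousLinearMap', Module.Basis.coord_apply]
    rw [h]
  set A : ℝ := ∑ i, ‖xs i‖ ^ p + 1 with hA
  set B : ℝ := ∑ i, ‖e i‖ ^ q + 1 with hB
  have hA1 : 1 ≤ A := by
    have : 0 ≤ ∑ i, ‖xs i‖ ^ p := Finset.sum_nonneg fun i _ => Real.rpow_nonneg (norm_nonneg _) _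
    linarith
  have hB1 : 1 ≤ B := by
    have : 0 ≤ ∑ i, ‖e i‖ ^ q := Finset.sum_nonneg fun i _ => Real.rpow_nonneg (norm_nonneg _) _
    linarith
  have key : ∀ (C r s : ℝ), 1 ≤ C → 1 < r → s ≤ C → (C⁻¹) ^ r * s ≤ 1 := by
    intro C r s hC hr hs
    have hC0 : 0 < C := by linarith
    have h1 : (C⁻¹) ^ r ≤ C⁻¹ := by
      calc (C⁻¹) ^ r ≤ (C⁻¹) ^ (1:ℝ) :=
            Real.rpow_le_rpow_of_exponent_ge (inv_pos.2 hC0) (inv_le_one_of_one_le₀ hC) hr.le
        _ = C⁻¹ := Real.rpow_one _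
    calc (C⁻¹) ^ r * s ≤ (C⁻¹) ^ r * C :=
          mul_le_mul_of_nonneg_left hs (Real.rpow_nonneg (inv_pos.2 hC0).le _)
      _ ≤ C⁻¹ * C := mul_le_mul_of_nonneg_right h1 hC0.le
      _ = 1 := inv_mul_cancel₀ hC0.ne'
  refine ⟨A * B, by positivity, Module.finrank ℝ E, fun i => A⁻¹ • xs i, fun i => B⁻¹ • e i,
    ?_, ?_, ?_⟩
  · simp only [norm_smul]
    rw [Real.norm_of_nonneg (by positivity)]
    have : ∀ i, (A⁻¹ * ‖xs i‖) ^ p = (A⁻¹) ^ p * ‖xs i‖ ^ p := fun i =>
      Real.mul_rpow (by positivity) (norm_nonneg _)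
    simp only [this]
    rw [← Finset.mul_sum]
    exact key A p _ hA1 hp1 (by linarith)
  · intro f hf
    have h1 : ∀ i, |f ((B⁻¹ • e i : E) : X)| ^ q ≤ (B⁻¹) ^ q * ‖e i‖ ^ q := by
      intro i
      rw [← Real.mul_rpow (by positivity) (norm_nonneg _)]
      refine Real.rpow_le_rpow (abs_nonneg _) ?_ (by linarith)
      rw [Submodule.coe_smul, map_smul, smul_eq_mul, abs_mul, abs_of_pos (by positivity)]
      refine mul_le_mul_of_nonneg_left ?_ (by positivity)
      calc |f (e i)| ≤ ‖f‖ * ‖((e i : E) : X)‖ := f.le_opNorm _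
        _ ≤ 1 * ‖((e i : E) : X)‖ := mul_le_mul_of_nonneg_right hf (norm_nonneg _)
        _ = ‖e i‖ := by rw [one_mul]; rfl
    refine (Finset.sum_le_sum fun i _ => h1 i).trans ?_
    rw [← Finset.mul_sum]
    exact key B q _ hB1 hq1 (by linarith)
  · conv_lhs => rw [hT]
    rw [Finset.smul_sum]
    refine Finset.sum_congr rfl fun i _ => ?_
    ext x
    simp only [_root_.smul_apply, ContinuousLinearMap.smulRight_apply,
      Submodule.coe_smul, smul_smul, smul_eq_mul, mul_inv]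
    congr 1
    ring

theorem UU_absorbent (hpq : p.HolderConjugate q) [FiniteDimensional ℝ E] :
    Absorbent ℝ (UU p q E) := by
  intro T
  obtain ⟨C, hC, hT⟩ := UU_exists_smul hpq T
  refine Absorbs.of_norm ⟨C, fun c hc => ?_⟩
  have hcpos : 0 < |c| := lt_of_lt_of_le hC hc
  have hc0 : c ≠ 0 := abs_pos.1 hcpos
  rw [Set.singleton_subset_iff, Set.mem_smul_set]
  refine ⟨(C * c⁻¹) • (C⁻¹ • T), ?_, ?_⟩
  · refine UU_balanced hpq _ ?_ _ hT
    rw [abs_mul, abs_of_pos hC, abs_inv]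
    rw [mul_inv_le_iff₀ hcpos]
    simpa using hc
  · rw [smul_smul, smul_smul]
    have : c * (C * c⁻¹) * C⁻¹ = 1 := by field_simp
    rw [this, one_smul]

end

theorem dualA (p q : ℝ) (hpq : p.HolderConjugate q) {X : Type} [NormedAddCommGroup X]
    [NormedSpace ℝ X] (E : Submodule ℝ X) [FiniteDimensional ℝ E] (S : X →L[ℝ] E) :
    ∃ Λ : (X →L[ℝ] E) →ₗ[ℝ] ℝ, Sub p q E Λ ∧
      gNorm p (E.subtypeL ∘L S) ≤ ENNReal.ofReal (Λ S) := by
  have hp1 : 1 < p := hpq.lt
  have hq1 : 1 < q := hpq.symm.lt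
  have hconv := UU_convex (E := E) hpq
  have habs := UU_absorbent (E := E) hpq
  have hqeq : p / (p - 1) = q := hpq.conjugate_eq.symm
  have hgauge : gNorm p (E.subtypeL ∘L S) ≤ ENNReal.ofReal (gauge (UU p q E) S) := by
    refine ENNReal.le_of_forall_pos_le_add fun ε hε _ => ?_
    have hlt : gauge (UU p q E) S < gauge (UU p q E) S + ε := by
      have : (0:ℝ) < ε := hε
      linarith
    obtain ⟨b, hb0, hb, hS⟩ := exists_lt_of_gauge_lt habs hlt
    obtain ⟨T', ⟨n, xs, ys, h1, h2, rfl⟩, hST⟩ := hS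
    have hle : gNorm p (E.subtypeL ∘L S) ≤ ENNReal.ofReal b := by
      unfold gNorm
      refine iInf_le_of_le n (iInf_le_of_le (fun k => b • xs k)
        (iInf_le_of_le (fun k => (ys k : X)) (iInf_le_of_le ?_ ?_)))
      · intro y
        rw [← hST]
        simp only [ContinuousLinearMap.comp_apply, _root_.smul_apply,
          _root_.sum_apply, ContinuousLinearMap.smulRight_apply,
          Submodule.subtypeL_apply, Submodule.coe_smul, Submodule.coe_sum, Finset.smul_sum,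
          smul_smul, smul_eq_mul]
      · have hw : weakNorm (p / (p - 1)) (fun k => (ys k : X)) ≤ 1 := by
          rw [hqeq]
          unfold weakNorm
          refine iSup_le fun f => iSup_le fun hf => ?_
          rw [← ENNReal.ofReal_one]
          refine ENNReal.ofReal_le_ofReal ?_
          exact Real.rpow_le_one (Finset.sum_nonneg fun k _ => Real.rpow_nonneg (abs_nonneg _) _)
            (h2 f hf) (by positivity)
        have hn : (∑ k, ‖b • xs k‖ ^ p) ^ (1 / p) ≤ b := by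
          have e1 : ∑ k, ‖b • xs k‖ ^ p = b ^ p * ∑ k, ‖xs k‖ ^ p := by
            rw [Finset.mul_sum]
            refine Finset.sum_congr rfl fun k _ => ?_
            rw [norm_smul, Real.norm_of_nonneg hb0.le, Real.mul_rpow hb0.le (norm_nonneg _)]
          rw [e1]
          have h3 : b ^ p * ∑ k, ‖xs k‖ ^ p ≤ b ^ p :=
            mul_le_of_le_one_right (Real.rpow_nonneg hb0.le _) h1
          calc (b ^ p * ∑ k, ‖xs k‖ ^ p) ^ (1 / p) ≤ (b ^ p) ^ (1 / p) :=
                Real.rpow_le_rpow (mul_nonneg (Real.rpow_nonneg hb0.le _)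
                  (Finset.sum_nonneg fun k _ => Real.rpow_nonneg (norm_nonneg _) _)) h3
                  (by positivity)
            _ = b := by
                rw [← Real.rpow_mul hb0.le, mul_one_div_cancel (by linarith : p ≠ 0),
                  Real.rpow_one]
        calc ENNReal.ofReal ((∑ k, ‖b • xs k‖ ^ p) ^ (1 / p)) *
              weakNorm (p / (p - 1)) (fun k => (ys k : X))
            ≤ ENNReal.ofReal b * 1 := mul_le_mul' (ENNReal.ofReal_le_ofReal hn) hw
          _ = ENNReal.ofReal b := mul_one _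
    refine hle.trans ?_
    calc ENNReal.ofReal b ≤ ENNReal.ofReal (gauge (UU p q E) S + ε) :=
          ENNReal.ofReal_le_ofReal hb.le
      _ ≤ ENNReal.ofReal (gauge (UU p q E) S) + ENNReal.ofReal ε := ENNReal.ofReal_add_le
      _ = ENNReal.ofReal (gauge (UU p q E) S) + ε := by rw [ENNReal.ofReal_coe_nnreal]
  have hsub : ∀ Λ : (X →L[ℝ] E) →ₗ[ℝ] ℝ, (∀ T, Λ T ≤ gauge (UU p q E) T) → Sub p q E Λ := by
    intro Λ hΛ n xs ys h1 h2
    exact (hΛ _).trans (gauge_le_one_of_mem ⟨n, xs, ys, h1, h2, rfl⟩)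
  rcases eq_or_ne S 0 with hS0 | hS0
  · refine ⟨0, hsub 0 fun T => by simpa using gauge_nonneg _, ?_⟩
    rw [hS0] at hgauge ⊢
    rw [gauge_zero] at hgauge
    simpa using hgauge
  · obtain ⟨Λ, hΛ1, hΛ2⟩ := exists_extension_of_le_sublinear
      (LinearPMap.mkSpanSingleton S (gauge (UU p q E) S) hS0) (gauge (UU p q E))
      (fun c hc x => by rw [gauge_smul_of_nonneg hc.le]; rfl)
      (fun x y => gauge_add_le hconv habs x y)
      (by
        rintro ⟨x, hx⟩
        obtain ⟨c, rfl⟩ := Submodule.mem_span_singleton.1 hx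
        rw [LinearPMap.mkSpanSingleton'_apply]
        rcases le_total 0 c with hc | hc
        · rw [gauge_smul_of_nonneg hc]
          exact le_refl _
        · refine le_trans ?_ (gauge_nonneg _)
          exact mul_nonpos_of_nonpos_of_nonneg hc (gauge_nonneg _))
    refine ⟨Λ, hsub Λ hΛ2, ?_⟩
    have hm : S ∈ Submodule.span ℝ {S} := Submodule.mem_span_singleton_self (R := ℝ) S
    have h := hΛ1 ⟨S, hm⟩
    have h' : LinearPMap.mkSpanSingleton S (gauge (UU p q E) S) hS0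
        ⟨S, hm⟩ = gauge (UU p q E) S :=
      LinearPMap.mkSpanSingleton'_apply_self (σ := RingHom.id ℝ) S (gauge (UU p q E) S) _ hm
    rw [h'] at h
    have h5 : Λ S = gauge (UU p q E) S := h
    rw [h5]
    exact hgauge

end Pool.Agent.Helper12.BAP
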