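import Pool.Agent.Helper37.BP.Defs2

/-! Part KAH of MP_6f6997_an (`p = ∞`): Kahane's inequality `L_2`–`L_1`
(Latała–Oleszkiewicz). -/

open MeasureTheory
open scoped ENNReal NNReal

namespace Pool.Agent.Helper12.BAP

open Pool.Agent.BAPp (sgn)

/-- Walsh functions -/
noncomputable def wal {n : ℕ} (A : Finset (Fin n)) (ω : Fin n → Bool) : ℝ :=
  ∏ i ∈ A, sgn (ω i)

/-- Walsh coefficients -/
noncomputable def wc {n : ℕ} (h : (Fin n → Bool) → ℝ) (A : Finset (Fin n)) : ℝ :=
  ∑ ω, h ω * wal A ω

/-- flip one sign -/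
def flip {n : ℕ} (i : Fin n) (ω : Fin n → Bool) : Fin n → Bool :=
  Function.update ω i (!ω i)

theorem flip_flip {n : ℕ} (i : Fin n) (ω : Fin n → Bool) : flip i (flip i ω) = ω := by
  unfold flip
  funext j
  by_cases h : j = i
  · subst h; simp
  · simp [Function.update_of_ne h]

theorem sum_flip {n : ℕ} (i : Fin n) (g : (Fin n → Bool) → ℝ) :
    ∑ ω, g (flip i ω) = ∑ ω, g ω :=
  Fintype.sum_bijective (flip i) (Function.Involutive.bijective (flip_flip i)) _ _ fun _ => rfl

theorem sgn_not (b : Bool) : sgn (!b) = - sgn b := by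
  cases b <;> simp [sgn]

theorem wal_flip {n : ℕ} (A : Finset (Fin n)) (i : Fin n) (ω : Fin n → Bool) :
    wal A (flip i ω) = if i ∈ A then - wal A ω else wal A ω := by
  unfold wal flip
  split_ifs with h
  · rw [← Finset.mul_prod_erase A _ h, ← Finset.mul_prod_erase A (fun i => sgn (ω i)) h]
    simp only [Function.update_self, sgn_not, neg_mul]
    congr 2
    refine Finset.prod_congr rfl fun j hj => ?_
    rw [Function.update_of_ne (Finset.ne_of_mem_erase hj)]
  · refine Finset.prod_congr rfl fun j hj => ?_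
    rw [Function.update_of_ne]
    rintro rfl
    exact h hj

theorem kernel {n : ℕ} (ω ω' : Fin n → Bool) :
    ∑ A : Finset (Fin n), wal A ω * wal A ω' = if ω = ω' then 2 ^ n else 0 := by
  have h1 : ∑ A : Finset (Fin n), wal A ω * wal A ω' =
      ∏ i : Fin n, (1 + sgn (ω i) * sgn (ω' i)) := by
    rw [Finset.prod_one_add, Finset.powerset_univ]
    refine Finset.sum_congr rfl fun A _ => ?_
    unfold wal
    rw [Finset.prod_mul_distrib]
  rw [h1]
  split_ifs with h
  · subst h
    simp only [Pool.Agent.BAPp.Khin.sgn_sq]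
    norm_num
  · obtain ⟨i, hi⟩ := Function.ne_iff.1 h
    refine Finset.prod_eq_zero (Finset.mem_univ i) ?_
    revert hi
    cases ω i <;> cases ω' i <;> simp [sgn]

theorem parseval {n : ℕ} (g h : (Fin n → Bool) → ℝ) :
    ∑ A : Finset (Fin n), wc g A * wc h A = 2 ^ n * ∑ ω, g ω * h ω := by
  unfold wc
  have h1 : ∀ A : Finset (Fin n), (∑ ω, g ω * wal A ω) * (∑ ω, h ω * wal A ω) =
      ∑ ω, ∑ ω', g ω * h ω' * (wal A ω * wal A ω') := by
    intro A
    rw [Finset.sum_mul_sum]
    exact Finset.sum_congr rfl fun ω _ => Finset.sum_congr rfl fun ω' _ => by ring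
  simp only [h1]
  rw [Finset.sum_comm]
  rw [Finset.mul_sum]
  refine Finset.sum_congr rfl fun ω _ => ?_
  rw [Finset.sum_comm]
  simp only [← Finset.mul_sum, kernel]
  rw [Finset.sum_eq_single ω]
  · rw [if_pos rfl]; ring
  · intro ω' _ hne
    rw [if_neg (Ne.symm hne), mul_zero]
  · intro h; exact absurd (Finset.mem_univ _) h

theorem wc_energy {n : ℕ} (h : (Fin n → Bool) → ℝ) (A : Finset (Fin n)) :
    wc (fun ω => ∑ i, (h ω - h (flip i ω))) A = 2 * A.card * wc h A := by
  unfold wc
  have h1 : ∀ ω, (∑ i, (h ω - h (flip i ω))) * wal A ω =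
      ∑ i, (h ω * wal A ω - h (flip i ω) * wal A ω) := by
    intro ω
    rw [Finset.sum_mul]
    exact Finset.sum_congr rfl fun i _ => by ring
  simp only [h1]
  rw [Finset.sum_comm]
  have h2 : ∀ i, ∑ ω, (h ω * wal A ω - h (flip i ω) * wal A ω) =
      if i ∈ A then 2 * ∑ ω, h ω * wal A ω else 0 := by
    intro i
    rw [Finset.sum_sub_distrib]
    have h3 : ∑ ω, h (flip i ω) * wal A ω = ∑ ω, h ω * wal A (flip i ω) := by
      rw [← sum_flip i (fun ω => h ω * wal A (flip i ω))]
      exact Finset.sum_congr rfl fun ω _ => by rw [flip_flip]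
    rw [h3]
    simp only [wal_flip]
    split_ifs with hi
    · simp only [mul_neg, Finset.sum_neg_distrib]; ring
    · ring
  simp only [h2]
  rw [Finset.sum_ite_mem, Finset.univ_inter, Finset.sum_const, nsmul_eq_mul]
  ring

/-! ### Part KAH -/
theorem kahane {V : Type} [AddCommGroup V] [Module ℝ V] (N : Seminorm ℝ V) (n : ℕ)
    (x : Fin n → V) :
    (2 : ℝ) ^ n * ∑ ω : Fin n → Bool, N (∑ i, sgn (ω i) • x i) ^ 2 ≤
      2 * (∑ ω : Fin n → Bool, N (∑ i, sgn (ω i) • x i)) ^ 2 := by
  set f : (Fin n → Bool) → V := fun ω => ∑ i, sgn (ω i) • x i with hf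
  set h : (Fin n → Bool) → ℝ := fun ω => N (f ω) with hh
  have hh0 : ∀ ω, 0 ≤ h ω := fun ω => apply_nonneg N _
  -- flips of `f`
  have hfl : ∀ i ω, f (flip i ω) = f ω - (2 * sgn (ω i)) • x i := by
    intro i ω
    simp only [hf]
    rw [← Finset.add_sum_erase _ _ (Finset.mem_univ i),
      ← Finset.add_sum_erase _ (fun i => sgn (ω i) • x i) (Finset.mem_univ i)]
    have h1 : ∑ j ∈ Finset.univ.erase i, sgn (flip i ω j) • x j =
        ∑ j ∈ Finset.univ.erase i, sgn (ω j) • x j := by
      refine Finset.sum_congr rfl fun j hj => ?_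
      unfold flip
      rw [Function.update_of_ne (Finset.ne_of_mem_erase hj)]
    rw [h1]
    have h2 : sgn (flip i ω i) = - sgn (ω i) := by
      unfold flip
      rw [Function.update_self, sgn_not]
    rw [h2, mul_smul, two_smul, neg_smul]
    abel
  have hsumf : ∀ ω, ∑ i, f (flip i ω) = ((n : ℝ) - 2) • f ω := by
    intro ω
    simp only [hfl]
    rw [Finset.sum_sub_distrib, Finset.sum_const, Finset.card_univ, Fintype.card_fin, sub_smul]
    congr 1
    · rw [Nat.cast_smul_eq_nsmul]
    · simp only [hf, Finset.smul_sum, mul_smul]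
  have hL : ∀ ω, ∑ i, (h ω - h (flip i ω)) ≤ 2 * h ω := by
    intro ω
    have h1 : N (∑ i, f (flip i ω)) ≤ ∑ i, h (flip i ω) := by
      simp only [hh]
      exact Finset.le_sum_of_subadditive N (map_zero N).le (map_add_le_add N) _ _
    rw [hsumf, map_smul_eq_mul] at h1
    have h2 : ((n : ℝ) - 2) * h ω ≤ ‖((n : ℝ) - 2)‖ * h ω :=
      mul_le_mul_of_nonneg_right (le_abs_self _) (hh0 ω)
    rw [Finset.sum_sub_distrib, Finset.sum_const, Finset.card_univ, Fintype.card_fin,
      nsmul_eq_mul]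
    have h3 : ((n : ℝ) - 2) * h ω ≤ ∑ i, h (flip i ω) := h2.trans h1
    linarith
  -- the spectral inequality
  have hP := parseval h h
  have hE : ∑ A : Finset (Fin n), (2 * (A.card : ℝ) * wc h A) * wc h A =
      2 ^ n * ∑ ω, (∑ i, (h ω - h (flip i ω))) * h ω := by
    rw [← parseval]
    exact Finset.sum_congr rfl fun A _ => by rw [wc_energy]
  have hneg : ∀ ω : Fin n → Bool, h (fun i => !ω i) = h ω := by
    intro ω
    simp only [hh, hf, sgn_not, neg_smul, Finset.sum_neg_distrib]
    exact map_neg_eq_map N _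
  have hodd : ∀ i : Fin n, wc h {i} = 0 := by
    intro i
    have h1 : wc h {i} = - wc h {i} := by
      unfold wc
      conv_lhs => rw [← Fintype.sum_bijective (fun (ω : Fin n → Bool) i => !ω i)
        (Function.Involutive.bijective (fun ω => by funext i; simp)) (fun ω =>
          h (fun i => !ω i) * wal {i} (fun i => !ω i)) (fun ω => h ω * wal {i} ω) (fun _ => rfl)]
      rw [← Finset.sum_neg_distrib]
      refine Finset.sum_congr rfl fun ω _ => ?_
      rw [hneg]
      unfold wal
      rw [Finset.prod_singleton, Finset.prod_singleton, sgn_not]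
      ring
    linarith
  have hemp : wc h ∅ = ∑ ω, h ω := by
    unfold wc wal
    simp
  have hkey : 4 * ∑ A : Finset (Fin n), wc h A * wc h A ≤
      (∑ A : Finset (Fin n), (2 * (A.card : ℝ) * wc h A) * wc h A) + 4 * (wc h ∅ * wc h ∅) := by
    have h1 : ∀ A : Finset (Fin n), 4 * (wc h A * wc h A) ≤ (2 * (A.card : ℝ) * wc h A) * wc h A +
        (if A = ∅ then 4 * (wc h A * wc h A) else 0) := by
      intro A
      split_ifs with hA
      · have : 0 ≤ (2 * (A.card : ℝ) * wc h A) * wc h A := by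
          have := mul_self_nonneg (wc h A)
          have : (0:ℝ) ≤ A.card := Nat.cast_nonneg _
          nlinarith
        linarith
      · rcases Nat.lt_or_ge A.card 2 with h2 | h2
        · have h3 : A.card = 1 := by
            have := Finset.card_pos.2 (Finset.nonempty_iff_ne_empty.2 hA)
            omega
          obtain ⟨i, rfl⟩ := Finset.card_eq_one.1 h3
          rw [hodd i]; simp
        · have h3 : (2:ℝ) ≤ A.card := by exact_mod_cast h2
          have := mul_self_nonneg (wc h A)
          nlinarith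
    calc 4 * ∑ A : Finset (Fin n), wc h A * wc h A
        = ∑ A : Finset (Fin n), 4 * (wc h A * wc h A) := by rw [Finset.mul_sum]
      _ ≤ ∑ A : Finset (Fin n), ((2 * (A.card : ℝ) * wc h A) * wc h A +
          (if A = ∅ then 4 * (wc h A * wc h A) else 0)) := Finset.sum_le_sum fun A _ => h1 A
      _ = _ := by
          rw [Finset.sum_add_distrib, Finset.sum_ite_eq' Finset.univ ∅, if_pos (Finset.mem_univ _)]
  rw [hP, hE, hemp] at hkey
  have hup : ∑ ω, (∑ i, (h ω - h (flip i ω))) * h ω ≤ ∑ ω, 2 * (h ω * h ω) := by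
    refine Finset.sum_le_sum fun ω _ => ?_
    have := mul_le_mul_of_nonneg_right (hL ω) (hh0 ω)
    linarith
  rw [← Finset.mul_sum] at hup
  have h2n : (0:ℝ) < 2 ^ n := by positivity
  have hup2 := mul_le_mul_of_nonneg_left hup h2n.le
  have e1 : ∑ ω, h ω ^ 2 = ∑ ω, h ω * h ω := Finset.sum_congr rfl fun ω _ => sq (h ω)
  have e2 : (∑ ω, h ω) ^ 2 = (∑ ω, h ω) * ∑ ω, h ω := sq _
  rw [e1, e2]
  nlinarith

end Pool.Agent.Helper12.BAP
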