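import Pool.Agent.Helper37.BP.SysDefs
import Pool.Graph.R_seed8.BAPp.TraceI
import Pool.Graph.R_seed8.BAPp.ILe

/-! Part WOP of MP_6f6997_an: the `q`-summing operator `W`. -/

open MeasureTheory
open scoped ENNReal NNReal

set_option maxSynthPendingDepth 3
set_option linter.unusedSectionVars false

namespace Pool.Agent.Helper12.BAP

open Pool.Agent.BAPp (sgn weakNorm gNorm iNorm incl FiniteRank)
open Pool.Agent.Helper37.BP

/-- the function `ρ^{-1/q} y` on `Γ` -/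
noncomputable def gf (q : ℝ) {Γ I : Type} (D : Sys Γ I)
    (y : lp (fun _ : Γ => ℝ) (ENNReal.ofReal q)) : Γ → ℝ :=
  fun γ => D.ρ γ ^ (-(1 / q)) * y γ

section ipl
variable {Γ : Type} {ρ v : Γ → ℝ}

theorem ip_comm (f g : Γ → ℝ) : ip ρ f g = ip ρ g f := by
  unfold ip
  exact tsum_congr fun γ => by ring

theorem ip_eq_sum (S : Finset Γ) (hS : ∀ γ, v γ ≠ 0 → γ ∈ S) (f : Γ → ℝ) :
    ip ρ v f = ∑ γ ∈ S, ρ γ * (v γ * f γ) := by
  unfold ip
  refine tsum_eq_sum fun γ hγ => ?_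
  have : v γ = 0 := by
    by_contra h
    exact hγ (hS γ h)
  rw [this]; ring

theorem ip_sum (hv : (Function.support v).Finite) {ι : Type} (F : Finset ι) (c : ι → ℝ)
    (g : ι → Γ → ℝ) :
    ip ρ v (fun γ => ∑ i ∈ F, c i * g i γ) = ∑ i ∈ F, c i * ip ρ v (g i) := by
  have hS : ∀ γ, v γ ≠ 0 → γ ∈ hv.toFinset := fun γ h => by simpa using h
  rw [ip_eq_sum hv.toFinset hS]
  simp only [ip_eq_sum hv.toFinset hS]
  simp only [Finset.mul_sum]
  rw [Finset.sum_comm]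
  refine Finset.sum_congr rfl fun i _ => Finset.sum_congr rfl fun γ _ => ?_
  ring

end ipl

/-- the cube estimate -/
theorem cube_est (p q : ℝ) (hpq : p.HolderConjugate q) {ι : Type} [Fintype ι] [DecidableEq ι]
    (a : (ι → Bool) → ℝ) :
    (∑ i, av a i ^ 2) ^ (q / 2) ≤
      ((4 * p ^ p) ^ (1 / p)) ^ q * ((∑ ω, |a ω| ^ q) / 2 ^ Fintype.card ι) := by
  have hp1 : 1 < p := hpq.lt
  have hq1 : 1 < q := hpq.symm.lt
  have hp0 : 0 < p := by linarith
  have hq0 : 0 < q := by linarith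
  set S : ℝ := ∑ i, av a i ^ 2 with hS
  set A : ℝ := ∑ ω, |a ω| ^ q with hA
  set N : ℝ := 2 ^ Fintype.card ι with hN
  set K : ℝ := (4 * p ^ p) ^ (1 / p) with hK
  have hN0 : 0 < N := by positivity
  have hA0 : 0 ≤ A := Finset.sum_nonneg fun ω _ => Real.rpow_nonneg (abs_nonneg _) _
  have hK0 : 0 ≤ K := by positivity
  have hS0 : 0 ≤ S := Finset.sum_nonneg fun i _ => sq_nonneg _
  rcases hS0.eq_or_lt with h | h
  · rw [← h, Real.zero_rpow (by positivity)]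
    positivity
  have h1 : N * S = ∑ ω, a ω * ∑ i, sgn (ω i) * av a i := by
    have : ∀ i, N * av a i ^ 2 = av a i * ∑ ω : ι → Bool, sgn (ω i) * a ω := by
      intro i
      have : N * av a i = ∑ ω : ι → Bool, sgn (ω i) * a ω := by
        unfold av
        rw [mul_div_cancel₀ _ hN0.ne']
      rw [← this]; ring
    rw [hS, Finset.mul_sum]
    simp only [this, Finset.mul_sum]
    rw [Finset.sum_comm]
    refine Finset.sum_congr rfl fun ω _ => Finset.sum_congr rfl fun i _ => ?_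
    ring
  have h2 := Real.inner_le_Lp_mul_Lq Finset.univ a (fun ω => ∑ i, sgn (ω i) * av a i) hpq.symm
  have h3 := Pool.Agent.BAPp.Khin.khinchine (fun i => av a i) p hp1.le
  have h4 : (∑ ω : ι → Bool, |∑ i, sgn (ω i) * av a i| ^ p) ^ (1 / p) ≤
      N ^ (1 / p) * K * S ^ (1 / 2 : ℝ) := by
    calc (∑ ω : ι → Bool, |∑ i, sgn (ω i) * av a i| ^ p) ^ (1 / p)
        ≤ (N * (4 * p ^ p * S ^ (p / 2))) ^ (1 / p) :=
          Real.rpow_le_rpow (Finset.sum_nonneg fun ω _ => Real.rpow_nonneg (abs_nonneg _) _) h3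
            (by positivity)
      _ = N ^ (1 / p) * K * S ^ (1 / 2 : ℝ) := by
          rw [Real.mul_rpow hN0.le (by positivity), Real.mul_rpow (by positivity) (by positivity),
            ← Real.rpow_mul hS0, ← hK, mul_assoc]
          congr 3
          field_simp
  have h5 : N * S ≤ A ^ (1 / q) * (N ^ (1 / p) * K * S ^ (1 / 2 : ℝ)) := by
    rw [h1]
    exact h2.trans (mul_le_mul_of_nonneg_left h4 (Real.rpow_nonneg hA0 _))
  have hSh : S = S ^ (1 / 2 : ℝ) * S ^ (1 / 2 : ℝ) := by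
    rw [← Real.rpow_add h]; norm_num
  have hSp : 0 < S ^ (1 / 2 : ℝ) := Real.rpow_pos_of_pos h _
  have hNN : N = N ^ (1 / p) * N ^ (1 / q) := by
    rw [← Real.rpow_add hN0, one_div, one_div, hpq.inv_add_inv_eq_one, Real.rpow_one]
  have hNp : 0 < N ^ (1 / p) := Real.rpow_pos_of_pos hN0 _
  have hNq : 0 < N ^ (1 / q) := Real.rpow_pos_of_pos hN0 _
  have h6 : N ^ (1 / q) * S ^ (1 / 2 : ℝ) ≤ A ^ (1 / q) * K := by
    have h7 : (N ^ (1 / p) * S ^ (1 / 2 : ℝ)) * (N ^ (1 / q) * S ^ (1 / 2 : ℝ)) ≤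
        (N ^ (1 / p) * S ^ (1 / 2 : ℝ)) * (A ^ (1 / q) * K) := by
      calc (N ^ (1 / p) * S ^ (1 / 2 : ℝ)) * (N ^ (1 / q) * S ^ (1 / 2 : ℝ))
          = (N ^ (1 / p) * N ^ (1 / q)) * (S ^ (1 / 2 : ℝ) * S ^ (1 / 2 : ℝ)) := by ring
        _ = N * S := by rw [← hNN, ← hSh]
        _ ≤ A ^ (1 / q) * (N ^ (1 / p) * K * S ^ (1 / 2 : ℝ)) := h5
        _ = _ := by ring
    exact le_of_mul_le_mul_left h7 (by positivity)
  have h8 : (N ^ (1 / q) * S ^ (1 / 2 : ℝ)) ^ q ≤ (A ^ (1 / q) * K) ^ q :=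
    Real.rpow_le_rpow (by positivity) h6 hq0.le
  rw [Real.mul_rpow hNq.le hSp.le, Real.mul_rpow (by positivity) hK0, ← Real.rpow_mul hN0.le,
    ← Real.rpow_mul hS0, ← Real.rpow_mul hA0, one_div_mul_cancel hq0.ne', Real.rpow_one,
    Real.rpow_one] at h8
  have e2 : (1 / 2 : ℝ) * q = q / 2 := by ring
  rw [e2] at h8
  rw [mul_div_assoc', le_div_iff₀ hN0]
  linarith

section wfs
variable {Γ I : Type} [DecidableEq I] (D : Sys Γ I)

theorem sq_est (F : Finset I) (c : I → ℝ) (L : Finset Γ) :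
    ∑ γ ∈ L, D.ρ γ * (∑ i ∈ F, c i * D.vh i γ) ^ 2 ≤ ∑ i ∈ F, c i ^ 2 := by
  set G : Γ → ℝ := fun γ => ∑ i ∈ F, c i * D.vh i γ with hG
  have hGs : (Function.support G).Finite := by
    refine (Set.Finite.biUnion F.finite_toSet (fun i _ => D.fin_supp i)).subset ?_
    intro γ hγ
    simp only [Function.mem_support, hG] at hγ
    obtain ⟨i, hi, h⟩ := Finset.exists_ne_zero_of_sum_ne_zero hγ
    simp only [Set.mem_iUnion, Function.mem_support]
    exact ⟨i, hi, fun h0 => h (by rw [h0, mul_zero])⟩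
  have h1 : ∑ γ ∈ L, D.ρ γ * (G γ) ^ 2 ≤ ip D.ρ G G := by
    unfold ip
    have hs : Summable fun γ => D.ρ γ * (G γ * G γ) :=
      summable_of_hasFiniteSupport (hGs.subset fun γ h => by
        simp only [Function.mem_support] at h ⊢
        intro h0; apply h; rw [h0]; ring)
    have := hs.sum_le_tsum L (fun γ _ => mul_nonneg (D.pos γ).le (mul_self_nonneg _))
    refine le_trans (le_of_eq ?_) this
    exact Finset.sum_congr rfl fun γ _ => by ring
  have h2 : ip D.ρ G G = ∑ i ∈ F, c i ^ 2 := by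
    rw [show ip D.ρ G G = ip D.ρ G (fun γ => ∑ i ∈ F, c i * D.vh i γ) from rfl,
      ip_sum hGs]
    refine Finset.sum_congr rfl fun i hi => ?_
    rw [ip_comm, show ip D.ρ (D.vh i) G = ip D.ρ (D.vh i) (fun γ => ∑ i ∈ F, c i * D.vh i γ)
      from rfl, ip_sum (D.fin_supp i), Finset.sum_eq_single i]
    · rw [D.unit]; ring
    · intro j _ hj
      rw [D.ortho i j hj.symm, mul_zero]
    · intro h; exact absurd hi h
  calc _ ≤ ip D.ρ G G := h1
    _ = _ := h2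

/-- the coefficients -/
noncomputable def cc (x : lp (fun _ : Γ ⊕ Om I => ℝ) ∞) (i : I) : ℝ :=
  ip D.ρ (D.vh i) (fun γ => x (Sum.inl γ))

/-- the function -/
noncomputable def wf (x : lp (fun _ : Γ ⊕ Om I => ℝ) ∞) (γ : Γ) : ℝ :=
  x (Sum.inl γ) - ∑ i ∈ (D.loc_fin γ).toFinset, cc D x i * D.vh i γ

theorem wf_eq (x : lp (fun _ : Γ ⊕ Om I => ℝ) ∞) (γ : Γ) (F : Finset I)
    (hF : (D.loc_fin γ).toFinset ⊆ F) :
    wf D x γ = x (Sum.inl γ) - ∑ i ∈ F, cc D x i * D.vh i γ := by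
  unfold wf
  congr 1
  refine Finset.sum_subset hF fun i _ hi => ?_
  have : D.vh i γ = 0 := by
    by_contra h
    exact hi (by simpa using h)
  rw [this, mul_zero]

theorem abs_sub_rpow (q : ℝ) (hq : 0 < q) (a b : ℝ) :
    |a - b| ^ q ≤ 2 ^ q * (|a| ^ q + |b| ^ q) := by
  have h1 : |a - b| ≤ 2 * max |a| |b| := by
    have := abs_sub a b
    have := le_max_left |a| |b|
    have := le_max_right |a| |b|
    linarith
  calc |a - b| ^ q ≤ (2 * max |a| |b|) ^ q := Real.rpow_le_rpow (abs_nonneg _) h1 hq.le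
    _ = 2 ^ q * (max |a| |b|) ^ q :=
        Real.mul_rpow (by norm_num) (le_max_of_le_left (abs_nonneg _))
    _ ≤ 2 ^ q * (|a| ^ q + |b| ^ q) := by
        refine mul_le_mul_of_nonneg_left ?_ (by positivity)
        have ha : 0 ≤ |a| ^ q := Real.rpow_nonneg (abs_nonneg _) _
        have hb : 0 ≤ |b| ^ q := Real.rpow_nonneg (abs_nonneg _) _
        rcases max_choice |a| |b| with h | h <;> rw [h] <;> linarith

theorem sum_rho_le (L : Finset Γ) : ∑ γ ∈ L, D.ρ γ ≤ 1 :=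
  (D.summable.sum_le_tsum L fun γ _ => (D.pos γ).le).trans D.le_one

theorem jensen (q : ℝ) (hq1 : 1 < q) (hq2 : q ≤ 2) (L : Finset Γ) (g : Γ → ℝ) :
    ∑ γ ∈ L, D.ρ γ * |g γ| ^ q ≤ (∑ γ ∈ L, D.ρ γ * g γ ^ 2) ^ (q / 2) := by
  have hq0 : 0 < q := by linarith
  have h1 : (1:ℝ) ≤ 2 / q := by rw [le_div_iff₀ hq0]; linarith
  have h := Real.inner_le_weight_mul_Lp_of_nonneg L h1 D.ρ (fun γ => |g γ| ^ q)
    (fun γ => (D.pos γ).le) (fun γ => Real.rpow_nonneg (abs_nonneg _) _)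
  have e1 : ∀ γ, (|g γ| ^ q) ^ (2 / q) = g γ ^ 2 := by
    intro γ
    rw [← Real.rpow_mul (abs_nonneg _), mul_div_cancel₀ _ hq0.ne']
    have : |g γ| ^ (2:ℝ) = |g γ| ^ (2:ℕ) := by exact_mod_cast Real.rpow_natCast |g γ| 2
    rw [this, sq_abs]
  simp only [e1, inv_div] at h
  refine h.trans ?_
  have h2 : (∑ γ ∈ L, D.ρ γ) ^ (1 - q / 2) ≤ 1 :=
    Real.rpow_le_one (Finset.sum_nonneg fun γ _ => (D.pos γ).le) (sum_rho_le D L)
      (by linarith)
  have h3 : 0 ≤ (∑ γ ∈ L, D.ρ γ * g γ ^ 2) ^ (q / 2) :=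
    Real.rpow_nonneg (Finset.sum_nonneg fun γ _ => mul_nonneg (D.pos γ).le (sq_nonneg _)) _
  exact mul_le_of_le_one_left h3 h2

/-- the finite set of indices for a finite set of points -/
noncomputable def FL (L : Finset Γ) : Finset I := by
  classical exact L.biUnion fun γ => (D.loc_fin γ).toFinset

theorem subset_FL (L : Finset Γ) {γ : Γ} (h : γ ∈ L) : (D.loc_fin γ).toFinset ⊆ FL D L := by
  classical
  intro i hi
  unfold FL
  rw [Finset.mem_biUnion]
  exact ⟨γ, h, hi⟩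

theorem main_est (p q : ℝ) (hpq : p.HolderConjugate q) (hp : 2 ≤ p) (x : XX D) (L : Finset Γ) :
    ∑ γ ∈ L, D.ρ γ * |wf D x γ| ^ q ≤
      2 ^ q * (∑ γ ∈ L, D.ρ γ * |(x : lp (fun _ : Γ ⊕ Om I => ℝ) ∞) (Sum.inl γ)| ^ q +
        ((4 * p ^ p) ^ (1 / p)) ^ q * ((∑ ω : FL D L → Bool,
          |(x : lp (fun _ : Γ ⊕ Om I => ℝ) ∞) (Sum.inr ⟨FL D L, ω⟩)| ^ q) /
            2 ^ Fintype.card (FL D L))) := by
  have hp1 : 1 < p := hpq.lt
  have hq1 : 1 < q := hpq.symm.lt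
  have hq0 : 0 < q := by linarith
  have hq2 : q ≤ 2 := by
    have h1 : q = p / (p - 1) := hpq.conjugate_eq
    rw [h1, div_le_iff₀ (by linarith)]
    linarith
  set F := FL D L with hF
  set g : Γ → ℝ := fun γ => ∑ i ∈ F, cc D x i * D.vh i γ with hg
  have h1 : ∑ γ ∈ L, D.ρ γ * |wf D x γ| ^ q ≤
      ∑ γ ∈ L, 2 ^ q * (D.ρ γ * |(x : lp (fun _ : Γ ⊕ Om I => ℝ) ∞) (Sum.inl γ)| ^ q +
        D.ρ γ * |g γ| ^ q) := by
    refine Finset.sum_le_sum fun γ hγ => ?_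
    rw [wf_eq D x γ F (subset_FL D L hγ)]
    have := mul_le_mul_of_nonneg_left (abs_sub_rpow q hq0
      ((x : lp (fun _ : Γ ⊕ Om I => ℝ) ∞) (Sum.inl γ)) (g γ)) (D.pos γ).le
    refine this.trans (le_of_eq ?_)
    ring
  refine h1.trans ?_
  rw [← Finset.mul_sum, Finset.sum_add_distrib]
  refine mul_le_mul_of_nonneg_left (add_le_add (le_refl _) ?_) (by positivity)
  refine (jensen D q hq1 hq2 L g).trans ?_
  refine le_trans (Real.rpow_le_rpow (Finset.sum_nonneg fun γ _ =>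
    mul_nonneg (D.pos γ).le (sq_nonneg _)) (sq_est D F (fun i => cc D x i) L) (by positivity)) ?_
  refine le_trans (le_of_eq ?_) (cube_est p q hpq
    (fun ω : F → Bool => (x : lp (fun _ : Γ ⊕ Om I => ℝ) ∞) (Sum.inr ⟨F, ω⟩)))
  congr 1
  rw [← Finset.sum_coe_sort F (fun i => cc D x i ^ 2)]
  refine Finset.sum_congr rfl fun i _ => ?_
  have := x.2 F i
  unfold cc
  rw [← this]

end wfs

theorem avg_le {ι : Type} [Fintype ι] [DecidableEq ι] (g : (ι → Bool) → ℝ) (C : ℝ)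
    (h : ∀ ω, g ω ≤ C) : (∑ ω, g ω) / 2 ^ Fintype.card ι ≤ C := by
  rw [div_le_iff₀ (by positivity)]
  calc ∑ ω, g ω ≤ ∑ _ω : ι → Bool, C := Finset.sum_le_sum fun ω _ => h ω
    _ = C * 2 ^ Fintype.card ι := by
      rw [Finset.sum_const, Finset.card_univ, Fintype.card_fun, Fintype.card_bool, nsmul_eq_mul]
      push_cast
      ring

theorem eval_le {Γ I : Type} [DecidableEq I] (D : Sys Γ I) (q : ℝ) (n : ℕ) (xs : Fin n → XX D)
    (h : ∀ f : XX D →L[ℝ] ℝ, ‖f‖ ≤ 1 → ∑ k, |f (xs k)| ^ q ≤ 1) (θ : Γ ⊕ Om I) :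
    ∑ k, |(xs k : lp (fun _ : Γ ⊕ Om I => ℝ) ∞) θ| ^ q ≤ 1 := by
  let e : XX D →ₗ[ℝ] ℝ :=
    { toFun := fun x => (x : lp (fun _ : Γ ⊕ Om I => ℝ) ∞) θ
      map_add' := fun x y => rfl
      map_smul' := fun c x => rfl }
  have hb : ∀ x, ‖e x‖ ≤ 1 * ‖x‖ := by
    intro x
    rw [one_mul]
    exact lp.norm_apply_le_norm ENNReal.top_ne_zero (x : lp (fun _ : Γ ⊕ Om I => ℝ) ∞) θ
  exact h (e.mkContinuous 1 hb) (LinearMap.mkContinuous_norm_le _ zero_le_one _)

theorem wop (p q : ℝ) (hpq : p.HolderConjugate q) (hp : 2 ≤ p)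
    [Fact (1 ≤ ENNReal.ofReal q)] : ∃ M : ℝ, 0 < M ∧
    ∀ (Γ I : Type) [DecidableEq I] (D : Sys Γ I),
    ∃ (YY : Submodule ℝ (lp (fun _ : Γ => ℝ) (ENNReal.ofReal q))) (W : XX D →ₗ[ℝ] YY),
      (∀ y, y ∈ YY ↔ ∀ j, ip D.ρ (D.vh j) (gf q D y) = 0) ∧
      IsClosed (YY : Set (lp (fun _ : Γ => ℝ) (ENNReal.ofReal q))) ∧
      (∀ x : XX D, (∀ i, ip D.ρ (D.vh i) (fun γ => (x : lp (fun _ : Γ ⊕ Om I => ℝ) ∞) (Sum.inl γ))
          = 0) → ∀ γ, gf q D (W x) γ = (x : lp (fun _ : Γ ⊕ Om I => ℝ) ∞) (Sum.inl γ)) ∧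
      (∀ (n : ℕ) (xs : Fin n → XX D),
        (∀ f : XX D →L[ℝ] ℝ, ‖f‖ ≤ 1 → ∑ k, |f (xs k)| ^ q ≤ 1) →
        ∑ k, ‖W (xs k)‖ ^ q ≤ M ^ q) := by
  have hp1 : 1 < p := hpq.lt
  have hq1 : 1 < q := hpq.symm.lt
  have hq0 : 0 < q := by linarith
  have htr : (ENNReal.ofReal q).toReal = q := ENNReal.toReal_ofReal hq0.le
  set K : ℝ := (4 * p ^ p) ^ (1 / p) with hK
  have hK0 : 0 ≤ K := by positivity
  refine ⟨(2 ^ q * (1 + K ^ q)) ^ (1 / q), by positivity, ?_⟩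
  intro Γ I _ D
  have hM : ((2 ^ q * (1 + K ^ q)) ^ (1 / q)) ^ q = 2 ^ q * (1 + K ^ q) := by
    rw [← Real.rpow_mul (by positivity), one_div_mul_cancel hq0.ne', Real.rpow_one]
  rw [hM]
  -- the density functions
  have hgf : ∀ (y : lp (fun _ : Γ => ℝ) (ENNReal.ofReal q)) (w : Γ → ℝ),
      (∀ γ, y γ = D.ρ γ ^ (1 / q) * w γ) → gf q D y = w := by
    intro y w h
    funext γ
    unfold gf
    rw [h γ, ← mul_assoc, ← Real.rpow_add (D.pos γ), neg_add_cancel, Real.rpow_zero, one_mul]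
  have hsmall : ∀ x : XX D, ∀ L : Finset Γ, ∑ γ ∈ L, D.ρ γ * |wf D x γ| ^ q ≤
      2 ^ q * (1 + K ^ q) * ‖x‖ ^ q := by
    intro x L
    refine (main_est D p q hpq hp x L).trans ?_
    have hx : ∀ θ, |(x : lp (fun _ : Γ ⊕ Om I => ℝ) ∞) θ| ^ q ≤ ‖x‖ ^ q := fun θ =>
      Real.rpow_le_rpow (abs_nonneg _) (lp.norm_apply_le_norm ENNReal.top_ne_zero
        (x : lp (fun _ : Γ ⊕ Om I => ℝ) ∞) θ) hq0.le
    rw [mul_assoc]
    refine mul_le_mul_of_nonneg_left ?_ (by positivity)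
    rw [add_mul, one_mul]
    refine add_le_add ?_ (mul_le_mul_of_nonneg_left ?_ (by positivity))
    · calc ∑ γ ∈ L, D.ρ γ * |(x : lp (fun _ : Γ ⊕ Om I => ℝ) ∞) (Sum.inl γ)| ^ q
          ≤ ∑ γ ∈ L, D.ρ γ * ‖x‖ ^ q :=
            Finset.sum_le_sum fun γ _ => mul_le_mul_of_nonneg_left (hx _) (D.pos γ).le
        _ = (∑ γ ∈ L, D.ρ γ) * ‖x‖ ^ q := by rw [Finset.sum_mul]
        _ ≤ 1 * ‖x‖ ^ q := mul_le_mul_of_nonneg_right (sum_rho_le D L)
            (Real.rpow_nonneg (norm_nonneg _) _)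
        _ = ‖x‖ ^ q := one_mul _
    · exact avg_le _ _ fun ω => hx _
  have hrw : ∀ (x : XX D) γ, ‖D.ρ γ ^ (1 / q) * wf D x γ‖ ^ q = D.ρ γ * |wf D x γ| ^ q := by
    intro x γ
    rw [Real.norm_eq_abs, abs_mul, abs_of_nonneg (Real.rpow_nonneg (D.pos γ).le _),
      Real.mul_rpow (Real.rpow_nonneg (D.pos γ).le _) (abs_nonneg _), ← Real.rpow_mul (D.pos γ).le,
      one_div_mul_cancel hq0.ne', Real.rpow_one]
  have hsum : ∀ x : XX D, Summable fun γ => D.ρ γ * |wf D x γ| ^ q := by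
    intro x
    exact summable_of_sum_le (fun γ => mul_nonneg (D.pos γ).le (Real.rpow_nonneg (abs_nonneg _) _))
      (hsmall x)
  have hmem : ∀ x : XX D, Memℓp (fun γ => D.ρ γ ^ (1 / q) * wf D x γ) (ENNReal.ofReal q) := by
    intro x
    refine memℓp_gen ?_
    rw [htr]
    simp only [hrw]
    exact hsum x
  have hcc_add : ∀ (x y : lp (fun _ : Γ ⊕ Om I => ℝ) ∞) i, cc D (x + y) i = cc D x i + cc D y i :=
    fun x y i => ip_add (D.fin_supp i) _ _
  have hcc_smul : ∀ (c : ℝ) (x : lp (fun _ : Γ ⊕ Om I => ℝ) ∞) i, cc D (c • x) i = c * cc D x i :=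
    fun c x i => ip_smul c _
  have hwf_add : ∀ (x y : lp (fun _ : Γ ⊕ Om I => ℝ) ∞) γ, wf D (x + y) γ = wf D x γ + wf D y γ := by
    intro x y γ
    unfold wf
    simp only [hcc_add, add_mul, Finset.sum_add_distrib]
    have : (x + y) (Sum.inl γ) = x (Sum.inl γ) + y (Sum.inl γ) := rfl
    rw [this]; ring
  have hwf_smul : ∀ (c : ℝ) (x : lp (fun _ : Γ ⊕ Om I => ℝ) ∞) γ, wf D (c • x) γ = c * wf D x γ := by
    intro c x γ
    unfold wf
    simp only [hcc_smul]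
    have : (c • x) (Sum.inl γ) = c * x (Sum.inl γ) := rfl
    rw [this, mul_sub, Finset.mul_sum]
    congr 1
    exact Finset.sum_congr rfl fun i _ => by ring
  -- orthogonality
  have hort : ∀ (x : XX D) j, ip D.ρ (D.vh j) (wf D x) = 0 := by
    intro x j
    classical
    set S := (D.fin_supp j).toFinset with hSdef
    have hS : ∀ γ, D.vh j γ ≠ 0 → γ ∈ S := fun γ h => by simpa [hSdef] using h
    set F : Finset I := insert j (FL D S) with hF
    have h1 : ip D.ρ (D.vh j) (wf D x) = ip D.ρ (D.vh j) (fun γ =>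
        (x : lp (fun _ : Γ ⊕ Om I => ℝ) ∞) (Sum.inl γ) +
          (-1) * ∑ i ∈ F, cc D x i * D.vh i γ) := by
      rw [ip_eq_sum S hS, ip_eq_sum S hS]
      refine Finset.sum_congr rfl fun γ hγ => ?_
      rw [wf_eq D x γ F ((subset_FL D S hγ).trans (Finset.subset_insert _ _))]
      ring
    rw [h1, ip_add (D.fin_supp j), ip_smul, ip_sum (D.fin_supp j), Finset.sum_eq_single j]
    · rw [D.unit]
      unfold cc
      ring
    · intro i _ hi
      rw [D.ortho j i hi.symm, mul_zero]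
    · intro h; exact absurd (Finset.mem_insert_self _ _) h
  have hgf_add : ∀ (y z : lp (fun _ : Γ => ℝ) (ENNReal.ofReal q)),
      gf q D (y + z) = fun γ => gf q D y γ + gf q D z γ := by
    intro y z; funext γ; unfold gf
    have : (y + z) γ = y γ + z γ := rfl
    rw [this]; ring
  have hgf_smul : ∀ (c : ℝ) (y : lp (fun _ : Γ => ℝ) (ENNReal.ofReal q)),
      gf q D (c • y) = fun γ => c * gf q D y γ := by
    intro c y; funext γ; unfold gf
    have : (c • y) γ = c * y γ := rfl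
    rw [this]; ring
  let YY : Submodule ℝ (lp (fun _ : Γ => ℝ) (ENNReal.ofReal q)) :=
    { carrier := {y | ∀ j, ip D.ρ (D.vh j) (gf q D y) = 0}
      add_mem' := by
        intro y z hy hz j
        rw [hgf_add, ip_add (D.fin_supp j), hy j, hz j, add_zero]
      zero_mem' := by
        intro j
        have : gf q D 0 = fun _ => 0 := by
          funext γ; unfold gf
          have : (0 : lp (fun _ : Γ => ℝ) (ENNReal.ofReal q)) γ = 0 := rfl
          rw [this, mul_zero]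
        rw [this]
        simp [ip]
      smul_mem' := by
        intro c y hy j
        rw [hgf_smul, ip_smul, hy j, mul_zero] }
  let W0 : XX D → lp (fun _ : Γ => ℝ) (ENNReal.ofReal q) := fun x =>
    ⟨fun γ => D.ρ γ ^ (1 / q) * wf D x γ, hmem x⟩
  have hW0 : ∀ x, gf q D (W0 x) = wf D x := fun x => hgf (W0 x) (wf D x) fun γ => rfl
  let W : XX D →ₗ[ℝ] YY :=
    { toFun := fun x => ⟨W0 x, fun j => by rw [hW0 x]; exact hort x j⟩
      map_add' := by
        intro x y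
        apply Subtype.ext
        apply lp.ext
        funext γ
        show D.ρ γ ^ (1 / q) * wf D ((x + y : XX D) : lp (fun _ : Γ ⊕ Om I => ℝ) ∞) γ =
          D.ρ γ ^ (1 / q) * wf D x γ + D.ρ γ ^ (1 / q) * wf D y γ
        rw [Submodule.coe_add, hwf_add, mul_add]
      map_smul' := by
        intro c x
        apply Subtype.ext
        apply lp.ext
        funext γ
        show D.ρ γ ^ (1 / q) * wf D ((c • x : XX D) : lp (fun _ : Γ ⊕ Om I => ℝ) ∞) γ =
          c * (D.ρ γ ^ (1 / q) * wf D x γ)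
        rw [Submodule.coe_smul, hwf_smul]
        ring }
  refine ⟨YY, W, fun y => Iff.rfl, ?_, ?_, ?_⟩
  · have hset : (YY : Set (lp (fun _ : Γ => ℝ) (ENNReal.ofReal q))) =
        ⋂ j, {y | ip D.ρ (D.vh j) (gf q D y) = 0} := by
      ext y
      simp only [Set.mem_iInter, Set.mem_ofPred_eq]
      exact Iff.rfl
    rw [hset]
    refine isClosed_iInter fun j => ?_
    refine isClosed_eq ?_ continuous_const
    have hS : ∀ γ, D.vh j γ ≠ 0 → γ ∈ (D.fin_supp j).toFinset := fun γ h => by simpa using h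
    simp only [ip_eq_sum _ hS, gf]
    have hc : ∀ γ, Continuous fun y : lp (fun _ : Γ => ℝ) (ENNReal.ofReal q) => y γ := fun γ =>
      (continuous_apply γ).comp lp.uniformContinuous_coe.continuous
    refine continuous_finsetSum _ fun γ _ => ?_
    exact continuous_const.mul (continuous_const.mul (continuous_const.mul (hc γ)))
  · intro x hx γ
    have h1 : gf q D (W x : lp (fun _ : Γ => ℝ) (ENNReal.ofReal q)) = wf D x := hW0 x
    rw [h1]
    unfold wf
    rw [Finset.sum_eq_zero, sub_zero]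
    intro i _
    have : cc D x i = 0 := hx i
    rw [this, zero_mul]
  · intro n xs hxs
    have hev := eval_le D q n xs hxs
    have hnorm : ∀ k, ‖W (xs k)‖ ^ q = ∑' γ, D.ρ γ * |wf D (xs k) γ| ^ q := by
      intro k
      have h1 := lp.norm_rpow_eq_tsum (p := ENNReal.ofReal q) (by rw [htr]; exact hq0) (W0 (xs k))
      rw [htr] at h1
      have h2 : ‖W (xs k)‖ = ‖W0 (xs k)‖ := rfl
      rw [h2, h1]
      exact tsum_congr fun γ => hrw (xs k) γ
    simp only [hnorm]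
    rw [← Summable.tsum_finsetSum (fun k _ => hsum (xs k))]
    refine Summable.tsum_le_of_sum_le (summable_sum fun k _ => hsum (xs k)) fun L => ?_
    rw [Finset.sum_comm]
    refine (Finset.sum_le_sum fun k _ => main_est D p q hpq hp (xs k) L).trans ?_
    rw [← Finset.mul_sum]
    refine mul_le_mul_of_nonneg_left ?_ (by positivity)
    rw [Finset.sum_add_distrib]
    refine add_le_add ?_ ?_
    · rw [Finset.sum_comm]
      simp only [← Finset.mul_sum]
      calc ∑ γ ∈ L, D.ρ γ * ∑ k, |(xs k : lp (fun _ : Γ ⊕ Om I => ℝ) ∞) (Sum.inl γ)| ^ q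
          ≤ ∑ γ ∈ L, D.ρ γ * 1 :=
            Finset.sum_le_sum fun γ _ => mul_le_mul_of_nonneg_left (hev _) (D.pos γ).le
        _ ≤ 1 := by simpa using sum_rho_le D L
    · rw [← Finset.mul_sum, ← Finset.sum_div, Finset.sum_comm]
      have hKq : 0 ≤ K ^ q := Real.rpow_nonneg hK0 _
      exact mul_le_of_le_one_right hKq (avg_le _ _ fun ω => hev _)

end Pool.Agent.Helper12.BAP
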