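import Pool.Agent.Helper37.BP.Defs2
import Pool.Agent.Helper12.BAP.Kah
import Pool.Agent.Helper12.BAP.Wop

/-! Part RL of MP_6f6997_an (`p = ∞`): Rademacher lifting for subspaces of `ℓ_q^n`. -/

open MeasureTheory
open scoped ENNReal NNReal

set_option maxSynthPendingDepth 3

namespace Pool.Agent.Helper12.BAP

open Pool.Agent.BAPp (sgn)
open Pool.Agent.Helper37.BP

/-- orthogonality of the coordinate signs -/
theorem sgn_ortho {N : ℕ} (i j : Fin N) :
    ∑ ω : Fin N → Bool, sgn (ω i) * sgn (ω j) = if i = j then 2 ^ N else 0 := by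
  split_ifs with h
  · subst h
    simp only [Pool.Agent.BAPp.Khin.sgn_sq]
    simp
  · have h1 : ∑ ω : Fin N → Bool, sgn (ω i) * sgn (ω j) =
        - ∑ ω : Fin N → Bool, sgn (ω i) * sgn (ω j) := by
      conv_lhs => rw [← sum_flip i (fun ω => sgn (ω i) * sgn (ω j))]
      rw [← Finset.sum_neg_distrib]
      refine Finset.sum_congr rfl fun ω _ => ?_
      unfold flip
      rw [Function.update_self, Function.update_of_ne (Ne.symm h), sgn_not]
      ring
    linarith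

/-- second moment of a Rademacher sum -/
theorem rad_sq {N : ℕ} (c : Fin N → ℝ) :
    ∑ ω : Fin N → Bool, (∑ j, sgn (ω j) * c j) ^ 2 = 2 ^ N * ∑ j, c j ^ 2 := by
  have h1 : ∀ ω : Fin N → Bool, (∑ j, sgn (ω j) * c j) ^ 2 =
      ∑ i, ∑ j, c i * c j * (sgn (ω i) * sgn (ω j)) := by
    intro ω
    rw [sq, Finset.sum_mul_sum]
    exact Finset.sum_congr rfl fun i _ => Finset.sum_congr rfl fun j _ => by ring
  simp only [h1]
  rw [Finset.sum_comm, Finset.mul_sum]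
  refine Finset.sum_congr rfl fun i _ => ?_
  rw [Finset.sum_comm, Finset.sum_eq_single i]
  · rw [← Finset.mul_sum, sgn_ortho, if_pos rfl]; ring
  · intro j _ hj
    rw [← Finset.mul_sum, sgn_ortho, if_neg (Ne.symm hj), mul_zero]
  · intro h; exact absurd (Finset.mem_univ _) h

/-- power means over the sign cube -/
theorem pow_mean {N : ℕ} (a : (Fin N → Bool) → ℝ) (ha : ∀ ω, 0 ≤ a ω) (r : ℝ) (hr : 1 ≤ r) :
    ((∑ ω, a ω) / 2 ^ N) ^ r ≤ (∑ ω, a ω ^ r) / 2 ^ N := by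
  have h := Real.rpow_arith_mean_le_arith_mean_rpow Finset.univ
    (fun _ : Fin N → Bool => (1:ℝ) / 2 ^ N) a (fun _ _ => by positivity)
    (by rw [Finset.sum_const, Finset.card_univ, Fintype.card_fun, Fintype.card_bool,
          Fintype.card_fin, nsmul_eq_mul]
        push_cast
        rw [mul_one_div_cancel (by positivity)]) (fun ω _ => ha ω) hr
  rw [← Finset.mul_sum, ← Finset.mul_sum] at h
  rw [one_div_mul_eq_div, one_div_mul_eq_div] at h
  exact h

/-- scalar estimate for the Rademacher projection -/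
theorem rad_scalar (p q : ℝ) (hpq : p.HolderConjugate q) (hp : 2 ≤ p) {N : ℕ}
    (g : (Fin N → Bool) → ℝ) :
    (∑ ω : Fin N → Bool, |∑ j, sgn (ω j) * av g j| ^ q) / 2 ^ N ≤
      ((4 * p ^ p) ^ (1 / p)) ^ q * ((∑ ω, |g ω| ^ q) / 2 ^ N) := by
  have hq1 : 1 < q := hpq.symm.lt
  have hq0 : 0 < q := by linarith
  have hp1 : 1 < p := hpq.lt
  have hq2 : q ≤ 2 := by
    have h1 : q = p / (p - 1) := hpq.conjugate_eq
    rw [h1, div_le_iff₀ (by linarith)]
    linarith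
  have h1 := cube_est p q hpq g
  rw [Fintype.card_fin] at h1
  refine le_trans ?_ h1
  have h2 := pow_mean (fun ω : Fin N → Bool => |∑ j, sgn (ω j) * av g j| ^ q)
    (fun ω => Real.rpow_nonneg (abs_nonneg _) _) (2 / q) (by rw [le_div_iff₀ hq0]; linarith)
  have h3 : ∀ ω : Fin N → Bool, (|∑ j, sgn (ω j) * av g j| ^ q) ^ (2 / q) =
      (∑ j, sgn (ω j) * av g j) ^ 2 := by
    intro ω
    rw [← Real.rpow_mul (abs_nonneg _), mul_div_cancel₀ _ hq0.ne']
    have h4 : |∑ j, sgn (ω j) * av g j| ^ (2:ℝ) = |∑ j, sgn (ω j) * av g j| ^ (2:ℕ) := by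
      exact_mod_cast Real.rpow_natCast _ 2
    rw [h4, sq_abs]
  simp only [h3] at h2
  rw [rad_sq, mul_div_cancel_left₀ _ (by positivity)] at h2
  set E : ℝ := (∑ ω : Fin N → Bool, |∑ j, sgn (ω j) * av g j| ^ q) / 2 ^ N with hE
  have hE0 : 0 ≤ E := by
    have : 0 ≤ ∑ ω : Fin N → Bool, |∑ j, sgn (ω j) * av g j| ^ q :=
      Finset.sum_nonneg fun ω _ => Real.rpow_nonneg (abs_nonneg _) _
    positivity
  calc E = (E ^ (2 / q)) ^ (q / 2) := by
        rw [← Real.rpow_mul hE0]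
        have : 2 / q * (q / 2) = 1 := by field_simp
        rw [this, Real.rpow_one]
    _ ≤ (∑ j, av g j ^ 2) ^ (q / 2) :=
        Real.rpow_le_rpow (Real.rpow_nonneg hE0 _) h2 (by positivity)

/-- norm in `ℓ_q^n` -/
theorem norm_pow (q : ℝ) (hq : 0 < q) [Fact (1 ≤ ENNReal.ofReal q)] {n : ℕ}
    (x : PiLp (ENNReal.ofReal q) (fun _ : Fin n => ℝ)) : ‖x‖ ^ q = ∑ k, |x k| ^ q := by
  have htr : (ENNReal.ofReal q).toReal = q := ENNReal.toReal_ofReal hq.le
  rw [PiLp.norm_eq_sum (by rw [htr]; exact hq), htr, ← Real.rpow_mul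
    (Finset.sum_nonneg fun k _ => Real.rpow_nonneg (norm_nonneg _) _),
    one_div_mul_cancel hq.ne', Real.rpow_one]
  rfl

theorem radLift_lq (p q : ℝ) (hpq : p.HolderConjugate q) (hp : 2 ≤ p)
    [Fact (1 ≤ ENNReal.ofReal q)] : ∃ K : ℝ, 1 ≤ K ∧ ∀ (n : ℕ)
    (S : Submodule ℝ (PiLp (ENNReal.ofReal q) (fun _ : Fin n => ℝ))), RadLift K S := by
  have hq1 : 1 < q := hpq.symm.lt
  have hq0 : 0 < q := by linarith
  have hp1 : 1 < p := hpq.lt
  have hq2 : q ≤ 2 := by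
    have h1 : q = p / (p - 1) := hpq.conjugate_eq
    rw [h1, div_le_iff₀ (by linarith)]
    linarith
  set K0 : ℝ := (4 * p ^ p) ^ (1 / p) with hK0
  have hK00 : 0 ≤ K0 := by positivity
  have hK01 : 1 ≤ K0 := by
    refine Real.one_le_rpow ?_ (by positivity)
    have : 1 ≤ p ^ p := Real.one_le_rpow hp1.le (by linarith)
    linarith
  refine ⟨2 * K0, by linarith, ?_⟩
  intro n S N b s
  set B : (Fin N → Bool) → PiLp (ENNReal.ofReal q) (fun _ : Fin n => ℝ) :=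
    fun ω => ∑ j, sgn (ω j) • b j with hB
  have h2N : (0:ℝ) < 2 ^ N := by positivity
  set T : ℝ := ∑ ω, ‖B ω + (s ω : PiLp (ENNReal.ofReal q) (fun _ : Fin n => ℝ))‖ with hT
  have hT0 : 0 ≤ T := Finset.sum_nonneg fun ω _ => norm_nonneg _
  -- the Rademacher coefficients of `B`
  have hBj : ∀ j, ((1:ℝ) / 2 ^ N) • ∑ ω : Fin N → Bool, sgn (ω j) • B ω = b j := by
    intro j
    have h1 : ∑ ω : Fin N → Bool, sgn (ω j) • B ω = (2 ^ N : ℝ) • b j := by
      simp only [hB, Finset.smul_sum, smul_smul]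
      rw [Finset.sum_comm, Finset.sum_eq_single j]
      · rw [← Finset.sum_smul, sgn_ortho, if_pos rfl]
      · intro i _ hi
        rw [← Finset.sum_smul, sgn_ortho, if_neg (Ne.symm hi), zero_smul]
      · intro h; exact absurd (Finset.mem_univ _) h
    rw [h1, smul_smul, one_div_mul_cancel h2N.ne', one_smul]
  rcases hT0.eq_or_lt with hT00 | hTpos
  · -- trivial case
    have h1 : ∀ ω, B ω + (s ω : PiLp (ENNReal.ofReal q) (fun _ : Fin n => ℝ)) = 0 := by
      intro ω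
      have := (Finset.sum_eq_zero_iff_of_nonneg (fun ω _ => norm_nonneg
        (B ω + (s ω : PiLp (ENNReal.ofReal q) (fun _ : Fin n => ℝ))))).1 hT00.symm ω
        (Finset.mem_univ _)
      exact norm_eq_zero.1 this
    have h2 : ∀ j, b j ∈ S := by
      intro j
      rw [← hBj j]
      refine S.smul_mem _ (Submodule.sum_mem _ fun ω _ => S.smul_mem _ ?_)
      rw [eq_neg_of_add_eq_zero_left (h1 ω)]
      exact S.neg_mem (s ω).2
    refine ⟨fun j => ⟨-b j, S.neg_mem (h2 j)⟩, ?_⟩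
    simp only [add_neg_cancel, smul_zero, Finset.sum_const_zero, norm_zero]
    positivity
  · -- nearly minimal choices
    set Nq : Seminorm ℝ (PiLp (ENNReal.ofReal q) (fun _ : Fin n => ℝ)) :=
      (normSeminorm ℝ (PiLp (ENNReal.ofReal q) (fun _ : Fin n => ℝ) ⧸ S)).comp S.mkQ with hNq
    have hNv : ∀ v, Nq v = ‖(Submodule.Quotient.mk v :
        PiLp (ENNReal.ofReal q) (fun _ : Fin n => ℝ) ⧸ S)‖ := fun v => rfl
    set ε : ℝ := 2 * (T / 2 ^ N) ^ 2 with hε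
    have hε0 : 0 < ε := by positivity
    have hchoice : ∀ ω, ∃ g : PiLp (ENNReal.ofReal q) (fun _ : Fin n => ℝ),
        g - B ω ∈ S ∧ ‖g‖ ^ 2 ≤ Nq (B ω) ^ 2 + ε := by
      intro ω
      have hN0 : 0 ≤ Nq (B ω) := apply_nonneg Nq _
      have hlt : Nq (B ω) < Real.sqrt (Nq (B ω) ^ 2 + ε) := by
        apply Real.lt_sqrt_of_sq_lt
        linarith
      obtain ⟨g, hg1, hg2⟩ := Submodule.Quotient.norm_mk_lt
        (Submodule.Quotient.mk (B ω) : PiLp (ENNReal.ofReal q) (fun _ : Fin n => ℝ) ⧸ S)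
        (sub_pos.2 hlt)
      refine ⟨g, (Submodule.Quotient.eq S).1 hg1, ?_⟩
      rw [← hNv] at hg2
      have hg3 : ‖g‖ ≤ Real.sqrt (Nq (B ω) ^ 2 + ε) := by linarith
      calc ‖g‖ ^ 2 ≤ Real.sqrt (Nq (B ω) ^ 2 + ε) ^ 2 :=
            pow_le_pow_left₀ (norm_nonneg _) hg3 2
        _ = Nq (B ω) ^ 2 + ε := Real.sq_sqrt (by positivity)
    choose g hg1 hg2 using hchoice
    -- the lifting
    have hσmem : ∀ j, ((1:ℝ) / 2 ^ N) • ∑ ω : Fin N → Bool, sgn (ω j) • (g ω - B ω) ∈ S :=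
      fun j => S.smul_mem _ (Submodule.sum_mem _ fun ω _ => S.smul_mem _ (hg1 ω))
    refine ⟨fun j => ⟨_, hσmem j⟩, ?_⟩
    have hbσ : ∀ j, b j + ((1:ℝ) / 2 ^ N) • ∑ ω : Fin N → Bool, sgn (ω j) • (g ω - B ω) =
        ((1:ℝ) / 2 ^ N) • ∑ ω : Fin N → Bool, sgn (ω j) • g ω := by
      intro j
      have h1 : ∑ ω : Fin N → Bool, sgn (ω j) • (g ω - B ω) =
          ∑ ω : Fin N → Bool, sgn (ω j) • g ω - ∑ ω : Fin N → Bool, sgn (ω j) • B ω := by
        rw [← Finset.sum_sub_distrib]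
        exact Finset.sum_congr rfl fun ω _ => smul_sub _ _ _
      rw [h1, smul_sub, hBj j]
      abel
    simp only [hbσ]
    -- coordinates of the Rademacher projection
    set R : (Fin N → Bool) → PiLp (ENNReal.ofReal q) (fun _ : Fin n => ℝ) := fun ω =>
      ∑ j, sgn (ω j) • ((1:ℝ) / 2 ^ N) • ∑ ω : Fin N → Bool, sgn (ω j) • g ω with hR
    have hRk : ∀ ω k, R ω k = ∑ j, sgn (ω j) * av (fun ω => g ω k) j := by
      intro ω k
      simp only [hR, av, WithLp.ofLp_sum, Finset.sum_apply]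
      refine Finset.sum_congr rfl fun j _ => ?_
      rw [PiLp.smul_apply, PiLp.smul_apply, WithLp.ofLp_sum, Finset.sum_apply, smul_eq_mul,
        smul_eq_mul, Fintype.card_fin]
      congr 1
      rw [one_div_mul_eq_div]
      rfl
    have hA1 : (∑ ω, ‖R ω‖ ^ q) / 2 ^ N ≤ K0 ^ q * ((∑ ω, ‖g ω‖ ^ q) / 2 ^ N) := by
      simp only [norm_pow q hq0, hRk]
      rw [Finset.sum_comm, Finset.sum_comm (f := fun ω k => |g ω k| ^ q), Finset.sum_div,
        Finset.sum_div, Finset.mul_sum]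
      exact Finset.sum_le_sum fun k _ => rad_scalar p q hpq hp fun ω => g ω k
    have hA2 := pow_mean (fun ω => ‖R ω‖) (fun ω => norm_nonneg _) q hq1.le
    have hA3 : ((∑ ω, ‖g ω‖ ^ q) / 2 ^ N) ^ (2 / q) ≤ (∑ ω, ‖g ω‖ ^ 2) / 2 ^ N := by
      have h := pow_mean (fun ω => ‖g ω‖ ^ q) (fun ω => Real.rpow_nonneg (norm_nonneg _) _)
        (2 / q) (by rw [le_div_iff₀ hq0]; linarith)
      have h3 : ∀ ω, (‖g ω‖ ^ q) ^ (2 / q) = ‖g ω‖ ^ 2 := by
        intro ω
        rw [← Real.rpow_mul (norm_nonneg _), mul_div_cancel₀ _ hq0.ne']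
        exact_mod_cast Real.rpow_natCast _ 2
      simpa only [h3] using h
    have hkah := kahane Nq N b
    have hNle : ∑ ω, Nq (B ω) ≤ T := by
      refine Finset.sum_le_sum fun ω _ => ?_
      rw [hNv]
      have h1 : (Submodule.Quotient.mk (B ω) :
          PiLp (ENNReal.ofReal q) (fun _ : Fin n => ℝ) ⧸ S) =
          Submodule.Quotient.mk (B ω + (s ω : PiLp (ENNReal.ofReal q) (fun _ : Fin n => ℝ))) := by
        rw [eq_comm, Submodule.Quotient.eq]
        simp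
      rw [h1]
      exact Submodule.Quotient.norm_mk_le S _
    have hN0 : 0 ≤ ∑ ω, Nq (B ω) := Finset.sum_nonneg fun ω _ => apply_nonneg Nq _
    have hg4 : (∑ ω, ‖g ω‖ ^ 2) / 2 ^ N ≤ (2 * (T / 2 ^ N)) ^ 2 := by
      have h1 : ∑ ω, ‖g ω‖ ^ 2 ≤ ∑ ω, Nq (B ω) ^ 2 + 2 ^ N * ε := by
        refine (Finset.sum_le_sum fun ω _ => hg2 ω).trans (le_of_eq ?_)
        rw [Finset.sum_add_distrib, Finset.sum_const, Finset.card_univ, Fintype.card_fun,
          Fintype.card_bool, Fintype.card_fin, nsmul_eq_mul]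
        push_cast
        ring
      have h2 : 2 ^ N * ∑ ω, Nq (B ω) ^ 2 ≤ 2 * T ^ 2 := by
        refine hkah.trans ?_
        have := pow_le_pow_left₀ hN0 hNle 2
        linarith
      rw [div_le_iff₀ h2N]
      have h3 : 2 ^ N * ∑ ω, ‖g ω‖ ^ 2 ≤ 2 ^ N * ((2 * (T / 2 ^ N)) ^ 2 * 2 ^ N) := by
        have h4 : 2 ^ N * ((2 * (T / 2 ^ N)) ^ 2 * 2 ^ N) = 4 * T ^ 2 := by
          field_simp
          norm_num
        rw [h4]
        have h5 : (2:ℝ) ^ N * (2 ^ N * ε) = 2 * T ^ 2 := by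
          rw [hε]; field_simp
        have h6 := mul_le_mul_of_nonneg_left h1 h2N.le
        rw [mul_add, h5] at h6
        linarith
      exact le_of_mul_le_mul_left h3 h2N
    -- conclusion
    set a : ℝ := (∑ ω, ‖R ω‖) / 2 ^ N with ha
    set G : ℝ := (∑ ω, ‖g ω‖ ^ q) / 2 ^ N with hG
    have ha0 : 0 ≤ a := div_nonneg (Finset.sum_nonneg fun ω _ => norm_nonneg _) h2N.le
    have hG0 : 0 ≤ G :=
      div_nonneg (Finset.sum_nonneg fun ω _ => Real.rpow_nonneg (norm_nonneg _) _) h2N.le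
    have hTT : 0 ≤ 2 * (T / 2 ^ N) := by positivity
    have hG1 : G ≤ (2 * (T / 2 ^ N)) ^ q := by
      have h1 : G ^ (2 / q) ≤ ((2 * (T / 2 ^ N)) ^ q) ^ (2 / q) := by
        rw [← Real.rpow_mul hTT, mul_div_cancel₀ _ hq0.ne']
        have h2 : (2 * (T / 2 ^ N)) ^ (2:ℝ) = (2 * (T / 2 ^ N)) ^ (2:ℕ) := by
          exact_mod_cast Real.rpow_natCast _ 2
        rw [h2]
        exact hA3.trans hg4
      exact (Real.rpow_le_rpow_iff hG0 (Real.rpow_nonneg hTT _) (by positivity)).1 h1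
    have ha1 : a ^ q ≤ (K0 * (2 * (T / 2 ^ N))) ^ q := by
      rw [Real.mul_rpow hK00 hTT]
      exact hA2.trans (hA1.trans (mul_le_mul_of_nonneg_left hG1 (Real.rpow_nonneg hK00 _)))
    have ha2 : a ≤ K0 * (2 * (T / 2 ^ N)) :=
      (Real.rpow_le_rpow_iff ha0 (by positivity) hq0).1 ha1
    rw [ha, div_le_iff₀ h2N] at ha2
    refine ha2.trans (le_of_eq ?_)
    field_simp

end Pool.Agent.Helper12.BAP
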